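import Mathlib
import Pool.Agent.H669R3.AccV
import Pool.Agent.Helper56.Ulr.MinorsRank

/-!
# Symbolic rank of matrices with accretive coefficient matrices: certificates for upper bounds

`A(x) = ∑ k, g_k(x) A_k` with real polynomials `g_k` which are positive at the points with positive
coordinates and complex `n × n` matrices `A_k` which are accretive in unknown coordinates `P, Q`
(`Re (v^* P A_k Q v) ≥ 0`).  Upper bounds for the symbolic rank are certified by the ranks at
explicit points, the number of which does not depend on `n`, and in the linear case by a shrunk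
subspace if the core (the common kernel of the hermitian parts) has dimension at most two modulo
the common kernel.
-/

set_option autoImplicit false

namespace Pool.Agent.Results.MP_966f71_lc.AccretiveRank

open Matrix MvPolynomial H669R3.Acc

/-- the symbolic matrix `∑ g_k A_k` has rank at most `r`: all its minors of size `r + 1` vanish -/
def SymRankLE {m n K : ℕ} (g : Fin K → MvPolynomial (Fin m) ℝ)
    (A : Fin K → Matrix (Fin n) (Fin n) ℂ) (r : ℕ) : Prop :=
  ∀ rows cols : Fin (r + 1) → Fin n, ((matPoly g A).submatrix rows cols).det = 0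

/-- the point `1 + z` -/
def pt {m : ℕ} (z : Fin m → ℕ) : Fin m → ℂ := fun i => (((1 + z i : ℕ) : ℝ) : ℂ)

/-- the sum of the images of `V` under the matrices `A_k` -/
def imageSum {K n : ℕ} (A : Fin K → Matrix (Fin n) (Fin n) ℂ) (V : Submodule ℂ (Fin n → ℂ)) :
    Submodule ℂ (Fin n → ℂ) := ⨆ k, V.map (A k).mulVecLin

theorem symRankLE_iff {m n K : ℕ} (g : Fin K → MvPolynomial (Fin m) ℝ)
    (A : Fin K → Matrix (Fin n) (Fin n) ℂ) (r : ℕ) :
    SymRankLE g A r ↔ ∀ y : Fin m → ℂ, (value g A y).rank ≤ r := by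
  have hev : ∀ (y : Fin m → ℂ) (rows cols : Fin (r + 1) → Fin n),
      eval y ((matPoly g A).submatrix rows cols).det =
        ((value g A y).submatrix rows cols).det := by
    intro y rows cols
    rw [RingHom.map_det, RingHom.mapMatrix_apply, ← map_matPoly]
    rfl
  constructor
  · intro h y
    rw [Pool.Agent.Helper56.Ulr.rank_le_iff_minors]
    intro rows cols
    rw [← hev, h rows cols, map_zero]
  · intro h rows cols
    refine MvPolynomial.funext fun y => ?_
    rw [hev, map_zero]
    exact (Pool.Agent.Helper56.Ulr.rank_le_iff_minors _ _).mp (h y) rows cols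

/-- the dimension of the image of `U` under the value of the matrix polynomial at `y` -/
noncomputable def imageDim {m n K : ℕ} (g : Fin K → MvPolynomial (Fin m) ℝ)
    (A : Fin K → Matrix (Fin n) (Fin n) ℂ) (U : Submodule ℂ (Fin n → ℂ)) (y : Fin m → ℂ) : ℕ :=
  Module.finrank ℂ (U.map (value g A y).mulVecLin)

/-- at the point `1 + z` the symbolic rank is attained and is `n - dim U` plus the maximal dimension
of the image of `U` -/
def IsGenericPoint {m n K : ℕ} (g : Fin K → MvPolynomial (Fin m) ℝ)
    (A : Fin K → Matrix (Fin n) (Fin n) ℂ) (U : Submodule ℂ (Fin n → ℂ)) (D : ℕ)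
    (z : Fin m → ℕ) : Prop :=
  ∑ i, z i ≤ D * imageDim g A U (pt z) ∧
  (∀ r, SymRankLE g A r ↔ (value g A (pt z)).rank ≤ r) ∧
  (value g A (pt z)).rank + Module.finrank ℂ U = n + imageDim g A U (pt z) ∧
  ∀ y : Fin m → ℂ, imageDim g A U y ≤ imageDim g A U (pt z)

/-- the upper bounds of the symbolic rank of `∑ x_k A_k` are exactly the numbers
`n - dim V + dim ∑ A_k V` and the larger ones -/
def HasCertificates {m n : ℕ} (A : Fin m → Matrix (Fin n) (Fin n) ℂ) : Prop :=
  ∀ r, SymRankLE (fun k => X k) A r ↔ ∃ V : Submodule ℂ (Fin n → ℂ),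
    n + Module.finrank ℂ (imageSum A V) ≤ r + Module.finrank ℂ V

/-- all `P A_k Q` are accretive, `P` and `Q` are invertible -/
def AccretiveIn {K n : ℕ} (P Q : Matrix (Fin n) (Fin n) ℂ)
    (A : Fin K → Matrix (Fin n) (Fin n) ℂ) : Prop :=
  P.det ≠ 0 ∧ Q.det ≠ 0 ∧ ∀ k, Accretive (P * A k * Q)

/-- the common kernel of the `A_k` -/
def commonKernel {K n : ℕ} (A : Fin K → Matrix (Fin n) (Fin n) ℂ) :
    Submodule ℂ (Fin n → ℂ) := ⨅ k, LinearMap.ker (A k).mulVecLin

/-- **Result.** (1) rank formula and explicit points; (2) shrunk subspaces for linear accretive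
families with a core of dimension at most two modulo the common kernel; (3) shrunk subspaces for
hermitian families containing a semidefinite matrix of corank at most two; (4) two is best
possible. -/
theorem result :
    (∀ {m n K D : ℕ} (g : Fin K → MvPolynomial (Fin m) ℝ) (A : Fin K → Matrix (Fin n) (Fin n) ℂ)
      (P Q : Matrix (Fin n) (Fin n) ℂ),
      AccretiveIn P Q A → (∀ k, PosOn (g k)) → (∀ k, (g k).totalDegree ≤ D) →
      ∃ z : Fin m → ℕ,
        IsGenericPoint g A ((core fun k => P * A k * Q).map Q.mulVecLin) D z) ∧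
    (∀ {m n : ℕ} (A : Fin m → Matrix (Fin n) (Fin n) ℂ) (P Q : Matrix (Fin n) (Fin n) ℂ),
      AccretiveIn P Q A →
      Module.finrank ℂ (core fun k => P * A k * Q) ≤ Module.finrank ℂ (commonKernel A) + 2 →
      HasCertificates A) ∧
    (∀ {m n : ℕ} (A : Fin m → Matrix (Fin n) (Fin n) ℂ) (P Q : Matrix (Fin n) (Fin n) ℂ)
      (p : Fin m → ℝ),
      P.det ≠ 0 → Q.det ≠ 0 → (∀ k, (P * A k * Q).IsHermitian) →
      Accretive (∑ k, (p k : ℂ) • (P * A k * Q)) →
      n ≤ (∑ k, (p k : ℂ) • (P * A k * Q)).rank + 2 → HasCertificates A) ∧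
    (∃ A : Fin 3 → Matrix (Fin 3) (Fin 3) ℂ, (∀ k, Accretive (A k)) ∧
      SymRankLE (fun k => X k) A 2 ∧ ∀ V : Submodule ℂ (Fin 3 → ℂ),
        Module.finrank ℂ V ≤ Module.finrank ℂ (imageSum A V)) := by
  have hlin : ∀ {m n : ℕ} (A : Fin m → Matrix (Fin n) (Fin n) ℂ) (y : Fin m → ℂ),
      value (fun k => (X k : MvPolynomial (Fin m) ℝ)) A y = ∑ k, y k • A k := by
    intro m n A y
    rw [value]
    simp only [aeval_X]
  -- a maximising subspace gives the equivalence
  have hcert : ∀ {m n : ℕ} (A : Fin m → Matrix (Fin n) (Fin n) ℂ),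
      (∃ (y0 : Fin m → ℂ) (V : Submodule ℂ (Fin n → ℂ)),
        (∑ k, y0 k • A k).rank + Module.finrank ℂ V =
          n + Module.finrank ℂ (⨆ k, V.map (A k).mulVecLin : Submodule ℂ (Fin n → ℂ))) →
      HasCertificates A := by
    rintro m n A ⟨y0, V, hV⟩ r
    rw [symRankLE_iff]
    constructor
    · intro h
      refine ⟨V, ?_⟩
      have h1 := h y0
      rw [hlin] at h1
      rw [imageSum]
      omega
    · rintro ⟨V', hV'⟩ y
      rw [hlin]
      have h2 := rank_add_le A y V'
      rw [imageSum] at hV'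
      omega
  refine ⟨?_, ?_, ?_, ?_⟩
  · rintro m n K D g A P Q ⟨hP, hQ, hA⟩ hg hD
    obtain ⟨z, hz, h1, h2, h3⟩ := generic_rank' g hg D hD A hP hQ hA _ rfl
    refine ⟨z, hz, fun r => ?_, h3, h2⟩
    rw [symRankLE_iff]
    exact ⟨fun h => h _, fun h y => (h1 y).trans h⟩
  · rintro m n A P Q ⟨hP, hQ, hA⟩ hc
    refine hcert A (shrunk A hP hQ hA (hc.trans (Nat.add_le_add_right ?_ 2)))
    -- the common kernel has the dimension of its preimage under `Q`, which is `core₀`
    have hQi : Q * Q⁻¹ = 1 := Matrix.mul_nonsing_inv _ (isUnit_iff_ne_zero.mpr hQ)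
    have hle : commonKernel A ≤
        (core₀ (fun k : Fin m => (X k : MvPolynomial (Fin m) ℝ)) fun k => P * A k * Q).map
          Q.mulVecLin := by
      intro v hv
      rw [commonKernel, Submodule.mem_iInf] at hv
      have hv' : ∀ k, A k *ᵥ v = 0 := fun k => hv k
      have hk : ∀ k, (P * A k * Q) *ᵥ (Q⁻¹ *ᵥ v) = 0 := by
        intro k
        rw [← mulVec_mulVec, mulVec_mulVec v Q, hQi, one_mulVec, ← mulVec_mulVec, hv' k,
          mulVec_zero]
      refine ⟨Q⁻¹ *ᵥ v, ⟨?_, fun k _ => hk k⟩, ?_⟩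
      · intro k
        refine ((hA k).posSemidef.dotProduct_mulVec_zero_iff _).mp ?_
        rw [Matrix.add_mulVec, dotProduct_add, star_form, hk k, dotProduct_zero, star_zero,
          add_zero]
      · rw [Matrix.mulVecLin_apply, mulVec_mulVec, hQi, one_mulVec]
    have := Submodule.finrank_mono hle
    rwa [finrank_map_of_inj (mulVec_injective hQ)] at this
  · intro m n A P Q p hP hQ hA hp hc
    exact hcert A (hermitian_shrunk A hP hQ hA p hp hc)
  · refine ⟨cross, cross_accretive, ?_, cross_no_shrunk⟩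
    rw [symRankLE_iff]
    intro y
    rw [hlin]
    exact cross_rank y

end Pool.Agent.Results.MP_966f71_lc.AccretiveRank
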