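import Pool.Agent.H800R3.VF3

/-!
# Certificates for the rank of polynomial matrices from infinitesimal symmetries

An infinitesimal symmetry of a polynomial matrix `M` is a polynomial vector field `v` such that
`v(M) = P M + M Q` for polynomial matrices `P`, `Q`.  If the values at a point `p` of some
symmetries, together with the coordinate directions in `J`, span all directions, then the rank of
`M` over the field of rational functions is attained at one of `(r d + 1) ^ |J|` points through
`p`; and this can be repeated on the slice, whose restricted matrix may have new symmetries.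
-/

set_option autoImplicit false

namespace Pool.Agent.Results.MP_966f71_lc.SymmetryTowers

open MvPolynomial Matrix

/-- the derivative of `f` along the polynomial vector field `∑ i, v i ∂/∂x_i` -/
noncomputable def along {F σ : Type*} [Field F] [Fintype σ] (v : σ → MvPolynomial σ F)
    (f : MvPolynomial σ F) : MvPolynomial σ F :=
  ∑ i, v i * pderiv i f

/-- the span of the values at `p` of the vector fields in `V` -/
def values {F σ : Type*} [Field F] (V : Set (σ → MvPolynomial σ F)) (p : σ → F) :
    Submodule F (σ → F) :=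
  Submodule.span F ((fun v i => eval p (v i)) '' V)

/-- the span of the coordinate directions in `J` -/
def coords {σ : Type*} [DecidableEq σ] (F : Type*) [Field F] (J : Finset σ) :
    Submodule F (σ → F) :=
  Submodule.span F ((fun j => Pi.single j (1 : F)) '' (J : Set σ))

/-- the point with coordinates `y i` for `i ∈ J` and `p i` for `i ∉ J` -/
def glue {F σ : Type*} [DecidableEq σ] (p : σ → F) (J : Finset σ) (y : σ → F) : σ → F :=
  fun i => if i ∈ J then y i else p i

/-- substitute `p i` for all the variables `X i` with `i ∉ J` -/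
noncomputable def restrict {F σ : Type*} [Field F] [DecidableEq σ] (p : σ → F) (J : Finset σ)
    (f : MvPolynomial σ F) : MvPolynomial σ F :=
  aeval (fun i => if i ∈ J then (X i : MvPolynomial σ F) else C (p i)) f

/-- `v` is an infinitesimal symmetry of the polynomial matrix `M` -/
def IsSymmetry {F σ m n : Type*} [Field F] [Fintype σ] [Fintype m] [Fintype n]
    (M : Matrix m n (MvPolynomial σ F)) (v : σ → MvPolynomial σ F) : Prop :=
  ∃ (P : Matrix m m (MvPolynomial σ F)) (Q : Matrix n n (MvPolynomial σ F)),
    M.map (along v) = P * M + M * Q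

/-- Towers of slices for the matrix `M`: `Tower M J p` says that one can reach the coordinate
subspace of the points which agree with `p` outside `J` from the whole space by steps as follows:
if `V` consists of infinitesimal symmetries of the restriction of `M` to the last subspace (given
by `J` and `q`), and `p` is a point of this subspace at which the values of the symmetries and the
coordinate directions in `J' ∪ Jᶜ` span everything, pass from `J`, `q` to `J'`, `p`. -/
inductive Tower {F σ m n : Type*} [Field F] [Fintype σ] [DecidableEq σ] [Fintype m] [Fintype n]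
    (M : Matrix m n (MvPolynomial σ F)) : Finset σ → (σ → F) → Prop
  | start (p : σ → F) : Tower M Finset.univ p
  | step (J J' : Finset σ) (q p : σ → F) (V : Set (σ → MvPolynomial σ F)) :
      Tower M J q → J' ⊆ J → (∀ i, i ∉ J → p i = q i) →
      (∀ v ∈ V, IsSymmetry (M.map (restrict q J)) v) →
      values V p ⊔ coords F (J' ∪ Jᶜ) = ⊤ → Tower M J' p

section proofs

variable {F σ m n : Type*} [Field F] [Fintype σ] [DecidableEq σ] [Fintype m] [Fintype n]

open Pool.Agent.H800R3

omit [Fintype σ] in
theorem span_eq (V : Set (σ → MvPolynomial σ F)) (p : σ → F) (J : Finset σ)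
    (h : values V p ⊔ coords F J = ⊤) :
    Submodule.span F ((Set.range fun (s : V) i => eval p (s.1 i)) ∪
      (fun j => Pi.single j (1 : F)) '' (J : Set σ)) = ⊤ := by
  rw [Submodule.span_union, ← h]
  congr 2
  ext x
  constructor
  · rintro ⟨s, rfl⟩
    exact ⟨s.1, s.2, rfl⟩
  · rintro ⟨v, hv, rfl⟩
    exact ⟨⟨v, hv⟩, rfl⟩

omit [Fintype σ] [DecidableEq σ] in
theorem eval_dets {r : ℕ} (x : σ → F) (A : Matrix (Fin r) m (MvPolynomial σ F))
    (M : Matrix m n (MvPolynomial σ F)) (B : Matrix n (Fin r) (MvPolynomial σ F)) :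
    eval x (A * M * B).det = (A.map (eval x) * M.map (eval x) * B.map (eval x)).det := by
  rw [RingHom.map_det, RingHom.mapMatrix_apply, Matrix.map_mul, Matrix.map_mul]

omit [Fintype σ] [DecidableEq σ] in
theorem map_C_eval {l k : Type*} (x : σ → F) (A : Matrix l k F) :
    (A.map (C : F →+* MvPolynomial σ F)).map (eval x) = A := by
  ext i j
  simp

omit [Fintype σ] [DecidableEq σ] in
theorem exists_const {r : ℕ} (M : Matrix m n (MvPolynomial σ F)) (x : σ → F)
    (h : r ≤ (M.map (eval x)).rank) :
    ∃ (A : Matrix (Fin r) m F) (B : Matrix n (Fin r) F),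
      eval x (A.map (C : F →+* MvPolynomial σ F) * M * B.map (C : F →+* MvPolynomial σ F)).det
        ≠ 0 := by
  classical
  obtain ⟨A, B, hAB⟩ := VF.exists_det_of_rank _ h
  refine ⟨A, B, ?_⟩
  rw [eval_dets, map_C_eval, map_C_eval]
  exact hAB

theorem step_aux [CharZero F] {r : ℕ} (M : Matrix m n (MvPolynomial σ F))
    (V : Set (σ → MvPolynomial σ F)) (p : σ → F) (J : Finset σ)
    (hV : ∀ v ∈ V, IsSymmetry M v) (h : values V p ⊔ coords F J = ⊤)
    (hne : ∃ x : σ → F, r ≤ (M.map (eval x)).rank) :
    ∃ y : σ → F, r ≤ (M.map (eval (glue p J y))).rank := by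
  by_contra hcon
  push Not at hcon
  obtain ⟨x, hx⟩ := hne
  obtain ⟨A, B, hAB⟩ := exists_const M x hx
  apply hAB
  have h0 := VF.slice_family (fun s : V => s.1) (VF.dets r M) (fun s AB => ?_) p J
    (span_eq V p J h) (fun AB y => ?_) (A.map C, B.map C)
  · have h1 : (A.map (C : F →+* MvPolynomial σ F) * M *
      B.map (C : F →+* MvPolynomial σ F)).det = 0 := h0
    rw [h1, map_zero]
  · obtain ⟨P, Q, hPQ⟩ := hV s.1 s.2
    exact VF.dets_stable M s.1 P Q hPQ AB
  · by_contra hne
    have h2 := eval_dets (glue p J y) AB.1 M AB.2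
    have h3 : (AB.1.map (eval (glue p J y)) * M.map (eval (glue p J y)) *
        AB.2.map (eval (glue p J y))).det ≠ 0 := by
      rw [← h2]
      exact hne
    exact absurd (VF.rank_of_det _ _ _ h3) (not_le.2 (hcon y))

theorem tower_aux [CharZero F] {r : ℕ} (M : Matrix m n (MvPolynomial σ F)) (J : Finset σ)
    (p : σ → F) (h : Tower M J p) (hne : ∃ x : σ → F, r ≤ (M.map (eval x)).rank) :
    ∃ y : σ → F, r ≤ (M.map (eval (glue p J y))).rank := by
  have hres : ∀ (q : σ → F) (J : Finset σ) (y : σ → F),
      (M.map (restrict q J)).map (eval y) = M.map (eval (glue q J y)) := by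
    intro q J y
    refine Matrix.ext fun a b => ?_
    exact VF.eval_restrict q J y (M a b)
  induction h with
  | start p =>
    obtain ⟨x, hx⟩ := hne
    refine ⟨x, ?_⟩
    have : glue p Finset.univ x = x := by funext i; simp [glue]
    rw [this]
    exact hx
  | step J J' q p V _ hJ hq hV ht ih =>
    obtain ⟨y, hy⟩ := ih
    rw [← hres] at hy
    obtain ⟨y, hy⟩ := step_aux (M.map (restrict q J)) V p (J' ∪ Jᶜ) hV ht ⟨y, hy⟩
    refine ⟨y, ?_⟩
    rw [hres] at hy
    have h4 : glue q J (glue p (J' ∪ Jᶜ) y) = glue p J' y := by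
      funext i
      by_cases hi : i ∈ J
      · simp [glue, hi]
      · have hi' : i ∉ J' := fun h => hi (hJ h)
        simp [glue, hi, hi', hq i hi]
    rw [h4] at hy
    exact hy

omit [Fintype σ] [DecidableEq σ] in
theorem degreeOf_det_le {r : ℕ} (M : Matrix m n (MvPolynomial σ F)) (d : ℕ) (j : σ)
    (hd : ∀ a b, (M a b).degreeOf j ≤ d) (A : Matrix (Fin r) m F) (B : Matrix n (Fin r) F) :
    (A.map (C : F →+* MvPolynomial σ F) * M *
      B.map (C : F →+* MvPolynomial σ F)).det.degreeOf j ≤ r * d := by
  classical
  have h1 : ∀ a b, ((A.map (C : F →+* MvPolynomial σ F) * M *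
      B.map (C : F →+* MvPolynomial σ F)) a b).degreeOf j ≤ d := by
    intro a b
    rw [Matrix.mul_apply]
    refine (degreeOf_sum_le _ _ _).trans (Finset.sup_le fun k _ => ?_)
    rw [Matrix.map_apply, mul_comm]
    refine (degreeOf_C_mul_le _ _ _).trans ?_
    rw [Matrix.mul_apply]
    refine (degreeOf_sum_le _ _ _).trans (Finset.sup_le fun l _ => ?_)
    rw [Matrix.map_apply]
    exact (degreeOf_C_mul_le _ _ _).trans (hd l k)
  rw [Matrix.det_apply']
  refine (degreeOf_sum_le _ _ _).trans (Finset.sup_le fun τ _ => ?_)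
  rw [← map_intCast (C : F →+* MvPolynomial σ F)]
  refine (degreeOf_C_mul_le _ _ _).trans ?_
  refine (degreeOf_prod_le _ _ _).trans ?_
  refine (Finset.sum_le_card_nsmul _ _ d fun i _ => h1 _ _).trans ?_
  rw [Finset.card_univ, Fintype.card_fin, smul_eq_mul]

omit [DecidableEq σ] [Fintype σ] in
theorem clear {l k : Type*} [Finite l] [Finite k]
    (A : Matrix l k (FractionRing (MvPolynomial σ F))) :
    ∃ (s : MvPolynomial σ F) (A' : Matrix l k (MvPolynomial σ F)), s ≠ 0 ∧
      A'.map (algebraMap _ (FractionRing (MvPolynomial σ F))) =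
        algebraMap _ (FractionRing (MvPolynomial σ F)) s • A := by
  obtain ⟨b, hb⟩ := IsLocalization.exist_integer_multiples_of_finite
    (nonZeroDivisors (MvPolynomial σ F)) (fun q : l × k => A q.1 q.2)
  choose a ha using hb
  refine ⟨b.1, Matrix.of fun i j => a (i, j), nonZeroDivisors.coe_ne_zero b, ?_⟩
  refine Matrix.ext fun i j => ?_
  have := ha (i, j)
  rw [Matrix.map_apply, Matrix.of_apply, this, Matrix.smul_apply, smul_eq_mul, Algebra.smul_def]

omit [DecidableEq σ] [Fintype σ] in
theorem rank_iff [CharZero F] {r : ℕ} (M : Matrix m n (MvPolynomial σ F)) :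
    r ≤ (M.map (algebraMap (MvPolynomial σ F) (FractionRing (MvPolynomial σ F)))).rank ↔
      ∃ x : σ → F, r ≤ (M.map (eval x)).rank := by
  classical
  have hmap : ∀ (A : Matrix (Fin r) m (MvPolynomial σ F)) (B : Matrix n (Fin r) (MvPolynomial σ F)),
      algebraMap (MvPolynomial σ F) (FractionRing (MvPolynomial σ F)) (A * M * B).det =
        (A.map (algebraMap (MvPolynomial σ F) (FractionRing (MvPolynomial σ F))) *
          M.map (algebraMap (MvPolynomial σ F) (FractionRing (MvPolynomial σ F))) *
          B.map (algebraMap (MvPolynomial σ F) (FractionRing (MvPolynomial σ F)))).det := by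
    intro A B
    rw [RingHom.map_det, RingHom.mapMatrix_apply, Matrix.map_mul, Matrix.map_mul]
  constructor
  · intro h
    obtain ⟨A, B, hAB⟩ := VF.exists_det_of_rank _ h
    obtain ⟨s, A', hs, hA'⟩ := clear A
    obtain ⟨t, B', ht, hB'⟩ := clear B
    have h1 : (A' * M * B').det ≠ 0 := by
      intro h0
      have h2 := hmap A' B'
      rw [h0, map_zero, hA', hB', Matrix.smul_mul, Matrix.smul_mul, Matrix.mul_smul,
        Matrix.det_smul, Matrix.det_smul] at h2
      have hs' : algebraMap (MvPolynomial σ F) (FractionRing (MvPolynomial σ F)) s ≠ 0 := by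
        rw [Ne, FaithfulSMul.algebraMap_eq_zero_iff]
        exact hs
      have ht' : algebraMap (MvPolynomial σ F) (FractionRing (MvPolynomial σ F)) t ≠ 0 := by
        rw [Ne, FaithfulSMul.algebraMap_eq_zero_iff]
        exact ht
      exact (mul_ne_zero (pow_ne_zero _ hs') (mul_ne_zero (pow_ne_zero _ ht') hAB)) h2.symm
    have h3 : ∃ x : σ → F, eval x (A' * M * B').det ≠ 0 := by
      by_contra hcon
      push Not at hcon
      apply h1
      apply MvPolynomial.funext
      intro x
      rw [hcon, map_zero]
    obtain ⟨x, hx⟩ := h3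
    rw [eval_dets] at hx
    exact ⟨x, VF.rank_of_det _ _ _ hx⟩
  · rintro ⟨x, hx⟩
    obtain ⟨A, B, hAB⟩ := exists_const M x hx
    have h1 : (A.map (C : F →+* MvPolynomial σ F) * M *
        B.map (C : F →+* MvPolynomial σ F)).det ≠ 0 := by
      intro h0
      apply hAB
      rw [h0, map_zero]
    have h2 := hmap (A.map C) (B.map C)
    refine VF.rank_of_det _
      ((A.map C).map (algebraMap (MvPolynomial σ F) (FractionRing (MvPolynomial σ F))))
      ((B.map C).map (algebraMap (MvPolynomial σ F) (FractionRing (MvPolynomial σ F)))) ?_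
    rw [← h2, Ne, FaithfulSMul.algebraMap_eq_zero_iff]
    exact h1

theorem exists_tower [CharZero F] (M : Matrix m n (MvPolynomial σ F)) (J : Finset σ) (q : σ → F)
    (h : Tower M J q) (V : Set (σ → MvPolynomial σ F)) (p : σ → F)
    (hq : ∀ i, i ∉ J → p i = q i) (hV : ∀ v ∈ V, IsSymmetry (M.map (restrict q J)) v) :
    ∃ J' : Finset σ, J' ⊆ J ∧
      J'.card + Module.finrank F (values V p ⊔ coords F Jᶜ : Submodule F (σ → F)) =
        Fintype.card σ ∧ Tower M J' p := by
  obtain ⟨J', h1, h2, h3⟩ := VF.exists_compl (values V p ⊔ coords F Jᶜ)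
  have h4 : J' ⊆ J := by
    intro j hj
    by_contra hjJ
    refine h3 j hj (Submodule.mem_sup_right (Submodule.subset_span ⟨j, ?_, rfl⟩))
    simpa using hjJ
  refine ⟨J', h4, h1, Tower.step J J' q p V h h4 hq hV ?_⟩
  rw [← h2, sup_assoc]
  congr 1
  rw [coords, coords, ← Submodule.span_union, ← Set.image_union]
  congr 2
  rw [Finset.coe_union, Set.union_comm]

end proofs

/-- **Rank certificates from symmetries.** Let `M` be a matrix of polynomials over a field of
characteristic zero, the entries of degree at most `d j` in the variable `j`.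
(1) If a tower of slices for `M` ends with `J` and `p`, then the rank of `M` over the field of
rational functions is at least `r` if and only if the rank of the value of `M` is at least `r` at
a point which agrees with `p` outside `J` and whose coordinates `y j`, `j ∈ J`, are natural numbers
with `y j ≤ r * d j`.
(2) Symmetries of the restriction of `M` to the last subspace of a tower, and a point of the
subspace, give a new step, with as many free variables as the codimension of the values of the
symmetries in the subspace. -/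
theorem result {F σ m n : Type*} [Field F] [CharZero F] [Fintype σ] [DecidableEq σ] [Fintype m]
    [Fintype n] (M : Matrix m n (MvPolynomial σ F)) (d : σ → ℕ)
    (hd : ∀ a b j, (M a b).degreeOf j ≤ d j) :
    (∀ (J : Finset σ) (p : σ → F), Tower M J p → ∀ r : ℕ,
      (r ≤ (M.map (algebraMap (MvPolynomial σ F) (FractionRing (MvPolynomial σ F)))).rank ↔
        ∃ y : σ → ℕ, (∀ j, y j ≤ r * d j) ∧
          r ≤ (M.map (eval (glue p J fun j => (y j : F)))).rank)) ∧
    (∀ (J : Finset σ) (q : σ → F), Tower M J q →
      ∀ (V : Set (σ → MvPolynomial σ F)) (p : σ → F), (∀ i, i ∉ J → p i = q i) →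
        (∀ v ∈ V, IsSymmetry (M.map (restrict q J)) v) →
        ∃ J' : Finset σ, J' ⊆ J ∧
          J'.card + Module.finrank F (values V p ⊔ coords F Jᶜ : Submodule F (σ → F)) =
            Fintype.card σ ∧ Tower M J' p) := by
  refine ⟨fun J p h r => ?_, fun J q h V p hq hV => exists_tower M J q h V p hq hV⟩
  rw [rank_iff]
  constructor
  · intro hne
    obtain ⟨y, hy⟩ := tower_aux M J p h hne
    obtain ⟨A, B, hAB⟩ := exists_const M _ hy
    obtain ⟨z, hz1, hz2⟩ := H800R3.VF.grid _ J p y hAB
    refine ⟨z, fun j => (hz1 j).trans (degreeOf_det_le M (d j) j (fun a b => hd a b j) A B), ?_⟩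
    have h2 : eval (glue p J fun j => (z j : F)) (A.map (C : F →+* MvPolynomial σ F) * M *
      B.map (C : F →+* MvPolynomial σ F)).det ≠ 0 := hz2
    rw [eval_dets] at h2
    exact H800R3.VF.rank_of_det _ _ _ h2
  · rintro ⟨y, _, hy⟩
    exact ⟨_, hy⟩

end Pool.Agent.Results.MP_966f71_lc.SymmetryTowers
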